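import Mathlib
import Pool.Agent.Q146.Trains

set_option autoImplicit false

/-! Every regular train network in `ℝ^d` with train length `ℓ` has a schedule whose delay is at most
`(9^(d+1) - 1) ℓ`, a constant depending only on `d` and `ℓ`. -/

namespace Pool.Agent.Results.MP_03ede5_co.BoundedDelay

open Pool.Agent.Q146.Trains

/-- A train line in `ℝ^d`: a track with distinct departure and arrival points, a train length and
a speed. -/
structure TrainLine (d : ℕ) where
  dep : EuclideanSpace ℝ (Fin d)
  arr : EuclideanSpace ℝ (Fin d)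
  len : ℝ
  speed : ℝ
  dep_ne_arr : dep ≠ arr
  len_pos : 0 < len
  speed_pos : 0 < speed

/-- The track of a train line. -/
def TrainLine.track {d : ℕ} (L : TrainLine d) : Set (EuclideanSpace ℝ (Fin d)) :=
  segment ℝ L.dep L.arr

/-- A train network: a set of train lines whose tracks pairwise do not overlap, i.e. two distinct
lines have at most one common point. -/
def IsNetwork {d : ℕ} (N : Set (TrainLine d)) : Prop :=
  ∀ L ∈ N, ∀ L' ∈ N, L ≠ L' → (L.track ∩ L'.track).Subsingleton

/-- A regular train network with train length `ℓ`. -/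
structure IsRegular {d : ℕ} (N : Set (TrainLine d)) (l : ℕ) : Prop where
  network : IsNetwork N
  speed_one : ∀ L ∈ N, L.speed = 1
  len_eq : ∀ L ∈ N, L.len = l
  parallel : ∀ L ∈ N, ∃ i : Fin d, ∀ j, j ≠ i → L.dep j = L.arr j
  dep_int : ∀ L ∈ N, ∀ j, ∃ n : ℤ, L.dep j = n
  arr_int : ∀ L ∈ N, ∀ j, ∃ n : ℤ, L.arr j = n

/-- The open time interval `(0, ℓ/v) + t + δ/v` during which the train of `L`, started with delay
`t`, occupies the point `p` of its track. -/
def occupied {d : ℕ} (L : TrainLine d) (t : ℝ) (p : EuclideanSpace ℝ (Fin d)) : Set ℝ :=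
  Set.Ioo (t + dist L.dep p / L.speed) (t + dist L.dep p / L.speed + L.len / L.speed)

/-- A collision-free schedule: nonnegative delays such that at every common point of two distinct
lines the two occupation intervals are disjoint. -/
def IsSchedule {d : ℕ} (N : Set (TrainLine d)) (t : TrainLine d → ℝ) : Prop :=
  (∀ L ∈ N, 0 ≤ t L) ∧
    ∀ L ∈ N, ∀ L' ∈ N, L ≠ L' → ∀ p ∈ L.track ∩ L'.track,
      Disjoint (occupied L (t L) p) (occupied L' (t L') p)

/-- For all `d` and `ℓ ≥ 1`, every regular `d`-dimensional train network with train length `ℓ` has a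
schedule of delay at most `(9^(d+1) - 1) ℓ`. -/
theorem result (d l : ℕ) (hl : 1 ≤ l) (N : Set (TrainLine d)) (hN : IsRegular N l) :
    ∃ t : TrainLine d → ℝ, IsSchedule N t ∧
      ∀ L ∈ N, t L ≤ (9 ^ (d + 1) - 1) * (l : ℝ) := by
  classical
  -- integer data
  have hax : ∀ x : N, ∃ i : Fin d, ∀ j, j ≠ i → x.1.dep j = x.1.arr j :=
    fun x => hN.parallel x.1 x.2
  choose ax hax using hax
  have hD : ∀ x : N, ∀ j, ∃ n : ℤ, x.1.dep j = n := fun x j => hN.dep_int x.1 x.2 j
  choose D hD using hD
  have hE : ∀ x : N, ∀ j, ∃ n : ℤ, x.1.arr j = n := fun x j => hN.arr_int x.1 x.2 j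
  choose E hE using hE
  set e : N → ℤ := fun x => E x (ax x) with he
  have hne : ∀ x, D x (ax x) ≠ e x := by
    intro x hx
    apply x.1.dep_ne_arr
    ext j
    by_cases hj : j = ax x
    · subst hj; rw [hD, hE, hx]
    · exact hax x j hj
  -- the track in coordinates
  have htrack : ∀ x : N, ∀ p : EuclideanSpace ℝ (Fin d), p ∈ x.1.track ↔
      (∀ j, j ≠ ax x → p j = D x j) ∧ (lo ax D e x : ℝ) ≤ p (ax x) ∧
        p (ax x) ≤ (hi ax D e x : ℝ) := by
    intro x p
    have hEj : ∀ j, j ≠ ax x → x.1.arr j = D x j := fun j hj => by rw [← hax x j hj, hD]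
    have hDx : x.1.dep (ax x) = (D x (ax x) : ℝ) := hD x _
    have hEx : x.1.arr (ax x) = (e x : ℝ) := hE x _
    constructor
    · rintro ⟨a, b, ha, hb, hab, rfl⟩
      refine ⟨?_, ?_, ?_⟩
      · intro j hj
        simp only [PiLp.add_apply, PiLp.smul_apply, smul_eq_mul]
        rw [hEj j hj, hD x j, ← add_mul, hab, one_mul]
      · simp only [PiLp.add_apply, PiLp.smul_apply, smul_eq_mul]
        rw [hDx, hEx]
        unfold lo
        push_cast
        have h1 := min_le_left (D x (ax x) : ℝ) (e x : ℝ)
        have h2 := min_le_right (D x (ax x) : ℝ) (e x : ℝ)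
        calc min (D x (ax x) : ℝ) (e x : ℝ)
            = a * min (D x (ax x) : ℝ) (e x : ℝ) + b * min (D x (ax x) : ℝ) (e x : ℝ) := by
              rw [← add_mul, hab, one_mul]
          _ ≤ _ := add_le_add (mul_le_mul_of_nonneg_left h1 ha) (mul_le_mul_of_nonneg_left h2 hb)
      · simp only [PiLp.add_apply, PiLp.smul_apply, smul_eq_mul]
        rw [hDx, hEx]
        unfold hi
        push_cast
        have h1 := le_max_left (D x (ax x) : ℝ) (e x : ℝ)
        have h2 := le_max_right (D x (ax x) : ℝ) (e x : ℝ)
        calc _ ≤ a * max (D x (ax x) : ℝ) (e x : ℝ) + b * max (D x (ax x) : ℝ) (e x : ℝ) :=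
              add_le_add (mul_le_mul_of_nonneg_left h1 ha) (mul_le_mul_of_nonneg_left h2 hb)
          _ = _ := by rw [← add_mul, hab, one_mul]
    · rintro ⟨h1, h2, h3⟩
      have hne' : ((e x : ℝ) - D x (ax x)) ≠ 0 := by
        intro h
        exact hne x (by exact_mod_cast (sub_eq_zero.mp h).symm)
      set b : ℝ := (p (ax x) - D x (ax x)) / ((e x : ℝ) - D x (ax x)) with hb
      have hb01 : 0 ≤ b ∧ b ≤ 1 := by
        unfold lo at h2
        unfold hi at h3
        push_cast at h2 h3
        rcases lt_or_gt_of_ne (hne x) with h | h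
        · have hlt : (D x (ax x) : ℝ) < e x := by exact_mod_cast h
          rw [min_eq_left hlt.le] at h2
          rw [max_eq_right hlt.le] at h3
          have hpos : 0 < (e x : ℝ) - D x (ax x) := by linarith
          exact ⟨div_nonneg (by linarith) hpos.le, (div_le_one hpos).mpr (by linarith)⟩
        · have hlt : (e x : ℝ) < D x (ax x) := by exact_mod_cast h
          rw [min_eq_right hlt.le] at h2
          rw [max_eq_left hlt.le] at h3
          have hneg : (e x : ℝ) - D x (ax x) < 0 := by linarith
          refine ⟨div_nonneg_of_nonpos (by linarith) hneg.le, ?_⟩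
          rw [hb, div_le_one_of_neg hneg]; linarith
      refine ⟨1 - b, b, by linarith [hb01.2], hb01.1, by ring, ?_⟩
      ext j
      simp only [PiLp.add_apply, PiLp.smul_apply, smul_eq_mul]
      by_cases hj : j = ax x
      · subst hj
        rw [hDx, hEx]
        have : b * ((e x : ℝ) - D x (ax x)) = p (ax x) - D x (ax x) := by
          rw [hb]; field_simp
        linarith
      · rw [hEj j hj, hD x j, h1 j hj]; ring
  have hlohi : ∀ z : N, lo ax D e z < hi ax D e z := by
    intro z; unfold lo hi; rcases lt_or_gt_of_ne (hne z) with h | h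
    · rw [min_eq_left h.le, max_eq_right h.le]; exact h
    · rw [min_eq_right h.le, max_eq_left h.le]; exact h
  -- travelled distance
  have hdist : ∀ x : N, ∀ p ∈ x.1.track,
      dist x.1.dep p = (sg ax D e x : ℝ) * (p (ax x) - D x (ax x)) := by
    intro x p hp
    obtain ⟨h1, h2, h3⟩ := (htrack x p).mp hp
    have hsum : dist x.1.dep p = |p (ax x) - D x (ax x)| := by
      rw [EuclideanSpace.dist_eq, Finset.sum_eq_single (ax x)]
      · rw [Real.sqrt_sq dist_nonneg, Real.dist_eq, hD x (ax x), abs_sub_comm]
      · intro j _ hj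
        rw [h1 j hj, hD x j, dist_self]; norm_num
      · simp
    rw [hsum]
    unfold lo at h2
    unfold hi at h3
    unfold sg
    push_cast at h2 h3
    split_ifs with h
    · have hlt : (D x (ax x) : ℝ) < e x := by exact_mod_cast h
      rw [min_eq_left hlt.le] at h2
      rw [abs_of_nonneg (by linarith)]; push_cast; ring
    · have hlt : (e x : ℝ) ≤ D x (ax x) := by exact_mod_cast (not_lt.mp h)
      rw [max_eq_left hlt] at h3
      rw [abs_of_nonpos (by linarith)]; push_cast; ring
  -- tracks on a common line do not overlap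
  have hdisj : ∀ x y : N, x ≠ y → Same ax D x y →
      hi ax D e x ≤ lo ax D e y ∨ hi ax D e y ≤ lo ax D e x := by
    intro x y hxy hs
    by_contra hcon
    push Not at hcon
    obtain ⟨hc1, hc2⟩ := hcon
    have hsub := hN.network x.1 x.2 y.1 y.2 (fun h => hxy (Subtype.ext h))
    have hxl := hlohi x
    have hyl := hlohi y
    set m : ℤ := max (lo ax D e x) (lo ax D e y) with hm
    set M : ℤ := min (hi ax D e x) (hi ax D e y) with hM
    have hmM : m < M := by
      rw [hm, hM]; exact max_lt (lt_min hxl hc2) (lt_min hc1 hyl)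
    have hpt : ∀ c : ℤ, m ≤ c → c ≤ M →
        (WithLp.toLp 2 (Function.update (fun j => (D x j : ℝ)) (ax x) (c : ℝ)) :
          EuclideanSpace ℝ (Fin d)) ∈ x.1.track ∩ y.1.track := by
      intro c hc hc'
      constructor
      · rw [htrack]
        refine ⟨?_, ?_, ?_⟩
        · intro j hj; simp [Function.update_of_ne hj]
        · simp only [Function.update_self]
          exact_mod_cast (le_max_left _ _).trans hc
        · simp only [Function.update_self]
          exact_mod_cast hc'.trans (min_le_left _ _)
      · rw [htrack]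
        refine ⟨?_, ?_, ?_⟩
        · intro j hj
          have hj' : j ≠ ax x := by rw [hs.1]; exact hj
          simp only [Function.update_of_ne hj']
          rw [hs.2 j hj']
        · rw [← hs.1]; simp only [Function.update_self]
          exact_mod_cast (le_max_right _ _).trans hc
        · rw [← hs.1]; simp only [Function.update_self]
          exact_mod_cast hc'.trans (min_le_right _ _)
    have h1 := hpt m le_rfl hmM.le
    have h2 := hpt M hmM.le le_rfl
    have h3 := hsub h1 h2
    have h4 := congrArg (fun v : EuclideanSpace ℝ (Fin d) => v (ax x)) h3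
    simp only [Function.update_self] at h4
    have h5 : m = M := by exact_mod_cast h4
    omega
  have hl' : (0 : ℤ) < (l : ℤ) := by exact_mod_cast hl
  obtain ⟨T, hT0, hTp, hTs⟩ := core ax D e hl' hne hdisj
  refine ⟨fun L => if h : L ∈ N then
      ((T ⟨L, h⟩ + sg ax D e ⟨L, h⟩ * D ⟨L, h⟩ (ax ⟨L, h⟩) : ℤ) : ℝ) else 0, ⟨?_, ?_⟩, ?_⟩
  · intro L hL
    simp only [hL, dif_pos]
    exact_mod_cast (hT0 ⟨L, hL⟩).1
  · intro L hL L' hL' hne' p hp
    simp only [hL, hL', dif_pos]
    set x : N := ⟨L, hL⟩ with hx
    set y : N := ⟨L', hL'⟩ with hy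
    have hxy : x ≠ y := fun h => hne' (congrArg Subtype.val h)
    have hpx := hp.1
    have hpy := hp.2
    have hdx := hdist x p hpx
    have hdy := hdist y p hpy
    obtain ⟨hx1, hx2, hx3⟩ := (htrack x p).mp hpx
    obtain ⟨hy1, hy2, hy3⟩ := (htrack y p).mp hpy
    -- the key gap
    have hgap : (l : ℝ) ≤ |((T x : ℝ) + sg ax D e x * p (ax x)) -
        ((T y : ℝ) + sg ax D e y * p (ax y))| := by
      by_cases ha : ax x = ax y
      · have hs : Same ax D x y := by
          refine ⟨ha, fun j hj => ?_⟩
          have h1 := hx1 j hj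
          have h2 := hy1 j (by rw [← ha]; exact hj)
          have h3 : (D x j : ℝ) = (D y j : ℝ) := h1.symm.trans h2
          exact_mod_cast h3
        rcases hdisj x y hxy hs with h | h
        · have hR : (hi ax D e x : ℝ) ≤ (lo ax D e y : ℝ) := by exact_mod_cast h
          have hpe : p (ax x) = (hi ax D e x : ℝ) := by
            rw [← ha] at hy2; linarith
          have heq : hi ax D e x = lo ax D e y := by
            have : (hi ax D e x : ℝ) = (lo ax D e y : ℝ) := by
              rw [← ha] at hy2; linarith
            exact_mod_cast this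
          have := hTs x y hxy hs heq
          rw [← ha, hpe]
          exact_mod_cast this
        · have hR : (hi ax D e y : ℝ) ≤ (lo ax D e x : ℝ) := by exact_mod_cast h
          have hpe : p (ax y) = (hi ax D e y : ℝ) := by
            rw [ha] at hx2; linarith
          have heq : hi ax D e y = lo ax D e x := by
            have : (hi ax D e y : ℝ) = (lo ax D e x : ℝ) := by
              rw [ha] at hx2; linarith
            exact_mod_cast this
          have := hTs y x hxy.symm (Same.symm ax D hs) heq
          rw [ha, hpe, abs_sub_comm]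
          exact_mod_cast this
      · have h1 : p (ax x) = (D y (ax x) : ℝ) := hy1 _ ha
        have h2 : p (ax y) = (D x (ax y) : ℝ) := hx1 _ (Ne.symm ha)
        have := hTp x y ha
        rw [h1, h2]
        exact_mod_cast this
    have hsx : L.speed = 1 := hN.speed_one L hL
    have hsy : L'.speed = 1 := hN.speed_one L' hL'
    have hlx : L.len = l := hN.len_eq L hL
    have hly : L'.len = l := hN.len_eq L' hL'
    have hdx' : dist L.dep p = (sg ax D e x : ℝ) * (p (ax x) - D x (ax x)) := hdx
    have hdy' : dist L'.dep p = (sg ax D e y : ℝ) * (p (ax y) - D y (ax y)) := hdy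
    unfold occupied
    rw [hsx, hsy, hlx, hly, div_one, div_one, div_one, hdx', hdy']
    push_cast
    have e1 : (T x : ℝ) + sg ax D e x * D x (ax x) + sg ax D e x * (p (ax x) - D x (ax x)) =
        (T x : ℝ) + sg ax D e x * p (ax x) := by ring
    have e2 : (T y : ℝ) + sg ax D e y * D y (ax y) + sg ax D e y * (p (ax y) - D y (ax y)) =
        (T y : ℝ) + sg ax D e y * p (ax y) := by ring
    rw [e1, e2]
    rw [Set.disjoint_left]
    rintro z ⟨hz1, hz2⟩ ⟨hz3, hz4⟩
    rcases le_abs.mp hgap with h | h
    · linarith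
    · linarith
  · intro L hL
    simp only [hL, dif_pos]
    have h := (hT0 ⟨L, hL⟩).2
    have h9 : (l : ℤ) * 3 ^ (2 * d + 2) - l = (9 ^ (d + 1) - 1) * l := by
      have : (3 : ℤ) ^ (2 * d + 2) = 9 ^ (d + 1) := by
        rw [show 2 * d + 2 = 2 * (d + 1) by ring, pow_mul]; norm_num
      rw [this]; ring
    rw [h9] at h
    exact_mod_cast h

end Pool.Agent.Results.MP_03ede5_co.BoundedDelay
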